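import Pool.Agent.helper87.PI.Defs
import Pool.Agent.helper15.PI.B2
import Pool.Agent.helper29.PI.D2

set_option autoImplicit false

/-! Project PI (palette index), module D4: small right degrees. -/

namespace Pool.Agent.helper87.PI

open Finset

section block

variable {X Y : Type} [Fintype X] [Fintype Y] [DecidableEq X] [DecidableEq Y]

/-- number of subsets of `range q` with at most `s` elements -/
theorem D4_card (q s : ℕ) :
    ((range q).powerset.filter (fun P => P.card ≤ s)).card ≤ (q + 1) ^ s := by
  classical
  refine le_trans ?_ (card_small q s).1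
  have h : ((range q).powerset.filter (fun P => P.card ≤ s)) ⊆
      ((univ : Finset (Finset (Fin q))).filter (fun P => P.card ≤ s)).image
        (fun P => P.map Fin.valEmbedding) := by
    intro P hP
    rw [mem_filter, mem_powerset] at hP
    rw [mem_image]
    refine ⟨univ.filter (fun i : Fin q => (i : ℕ) ∈ P), ?_, ?_⟩
    · rw [mem_filter]
      refine ⟨mem_univ _, le_trans ?_ hP.2⟩
      rw [← card_map Fin.valEmbedding]
      apply card_le_card
      intro n hn
      rw [mem_map] at hn
      obtain ⟨i, hi, rfl⟩ := hn
      exact (mem_filter.1 hi).2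
    · ext n
      rw [mem_map]
      constructor
      · rintro ⟨i, hi, rfl⟩
        exact (mem_filter.1 hi).2
      · intro hn
        exact ⟨⟨n, mem_range.1 (hP.1 hn)⟩, mem_filter.2 ⟨mem_univ _, hn⟩, rfl⟩
  exact (card_le_card h).trans card_image_le

/-- pi:D4 -- small right degrees -/
theorem cls (E : Finset (X × Y)) (θ K : ℕ) (hx : ∀ x, dX E x = 0 ∨ θ ≤ dX E x)
    (hy : ∀ y, dY E y ≤ K) (hK : K ≤ θ) :
    ∃ H ⊆ E, Good H ((θ + 1) ^ K + 2) ∧ ∀ x, dX E x ≠ 0 → dX H x = θ := by
  classical
  have hT : ∀ x, ∃ T ⊆ E.filter (fun e => e.1 = x), T.card = if dX E x = 0 then 0 else θ := by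
    intro x
    split_ifs with h
    · exact ⟨∅, empty_subset _, card_empty⟩
    · exact exists_subset_card_eq ((hx x).resolve_left h)
  choose T hTs hTc using hT
  set H : Finset (X × Y) := univ.biUnion T with hH
  have hHE : H ⊆ E := by
    intro e he
    rw [hH, mem_biUnion] at he
    obtain ⟨x, -, he⟩ := he
    exact (mem_filter.1 (hTs x he)).1
  have hfib : ∀ x, H.filter (fun e => e.1 = x) = T x := by
    intro x
    ext e
    rw [mem_filter, hH, mem_biUnion]
    constructor
    · rintro ⟨⟨x', -, he⟩, hx'⟩
      have := (mem_filter.1 (hTs x' he)).2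
      rw [← hx', this]
      exact he
    · intro he
      exact ⟨⟨x, mem_univ _, he⟩, (mem_filter.1 (hTs x he)).2⟩
  have hdX : ∀ x, dX H x = if dX E x = 0 then 0 else θ := by
    intro x
    unfold dX at hTc ⊢
    rw [hfib x]
    exact hTc x
  have hdY : ∀ y, dY H y ≤ K := by
    intro y
    refine le_trans ?_ (hy y)
    exact card_le_card (filter_subset_filter _ hHE)
  obtain ⟨c, hc1, hc2⟩ := konig θ H (fun x => by rw [hdX]; split_ifs <;> simp)
    (fun y => (hdY y).trans hK)
  refine ⟨H, hHE, ⟨c, hc1, ?_⟩, fun x hx' => by rw [hdX, if_neg hx']⟩
  have hsub : (univ.image (palX H c)) ∪ (univ.image (palY H c)) ⊆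
      ((range θ).powerset.filter (fun P => P.card ≤ K)) ∪ {range θ, ∅} := by
    intro P hP
    rw [mem_union, mem_image, mem_image] at hP
    rw [mem_union]
    rcases hP with ⟨x, -, rfl⟩ | ⟨y, -, rfl⟩
    · right
      by_cases h0 : dX E x = 0
      · have h1 : dX H x = 0 := by rw [hdX, if_pos h0]
        unfold dX at h1
        rw [card_eq_zero] at h1
        have : palX H c x = ∅ := by
          unfold palX
          rw [h1, image_empty]
        rw [this]
        simp
      · have h1 : dX H x = θ := by rw [hdX, if_neg h0]
        have h2 : palX H c x = range θ := by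
          apply eq_of_subset_of_card_le
          · intro k hk
            unfold palX at hk
            rw [mem_image] at hk
            obtain ⟨e, he, rfl⟩ := hk
            exact mem_range.2 (hc2 e (mem_filter.1 he).1)
          · rw [card_range]
            unfold palX
            rw [card_image_of_injOn]
            · unfold dX at h1
              exact h1.ge
            · intro e he f hf hef
              by_contra hne
              have he' := mem_filter.1 (mem_coe.1 he)
              have hf' := mem_filter.1 (mem_coe.1 hf)
              exact hc1 e he'.1 f hf'.1 hne (Or.inl (he'.2.trans hf'.2.symm)) hef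
        rw [h2]
        simp
    · left
      rw [mem_filter, mem_powerset]
      constructor
      · intro k hk
        unfold palY at hk
        rw [mem_image] at hk
        obtain ⟨e, he, rfl⟩ := hk
        exact mem_range.2 (hc2 e (mem_filter.1 he).1)
      · unfold palY
        exact card_image_le.trans (hdY y)
  refine (card_le_card hsub).trans ((card_union_le _ _).trans ?_)
  exact Nat.add_le_add (D4_card θ K) card_le_two

end block

end Pool.Agent.helper87.PI
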