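import Pool.Agent.helper87.PI.Defs
import Pool.Agent.helper29.PI.D1
import Pool.Agent.helper87.PI.D8

set_option autoImplicit false

/-! Project PI (palette index), module E1: all rounds for the left side. -/

namespace Pool.Agent.helper87.PI

open Finset

section block

variable {X Y : Type} [Fintype X] [Fintype Y] [DecidableEq X] [DecidableEq Y]

omit [Fintype X] [Fintype Y] in
theorem E1_dX_union {F G : Finset (X × Y)} (hd : Disjoint F G) (x : X) :
    dX (F ∪ G) x = dX F x + dX G x := by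
  unfold dX
  rw [filter_union, card_union_of_disjoint (disjoint_filter_filter hd)]

omit [Fintype X] [Fintype Y] [DecidableEq Y] in
theorem E1_dX_mono {F G : Finset (X × Y)} (h : F ⊆ G) (x : X) : dX F x ≤ dX G x :=
  card_le_card (filter_subset_filter _ h)

omit [Fintype X] [Fintype Y] [DecidableEq X] in
theorem E1_dY_mono {F G : Finset (X × Y)} (h : F ⊆ G) (y : Y) : dY F y ≤ dY G y :=
  card_le_card (filter_subset_filter _ h)

/-- the first `k` rounds, with abstract constants -/
theorem E1_iter (E : Finset (X × Y)) (Δ A L : ℕ) (hx : ∀ x, dX E x ≤ Δ) (hy : ∀ y, dY E y ≤ Δ)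
    (hr : ∀ E' : Finset (X × Y), (∀ x, dX E' x ≤ Δ) → (∀ y, dY E' y ≤ Δ) →
      ∃ F ⊆ E', Good F (2 ^ A) ∧ ∀ x, Δ ≤ 2 * dX E' x → Δ ≤ L * dX F x) (k : ℕ) :
    ∃ F ⊆ E, Good F (2 ^ (A * k)) ∧ ∀ x, 2 * dX (E \ F) x < Δ ∨ Δ * k ≤ L * dX F x := by
  induction k with
  | zero =>
    refine ⟨∅, empty_subset _, ?_, fun x => Or.inr (by simp)⟩
    rw [Nat.mul_zero, pow_zero]
    exact good_empty
  | succ k ih =>
    obtain ⟨F, hFE, hF, hFx⟩ := ih
    obtain ⟨G, hGE, hG, hGx⟩ := hr (E \ F) (fun x => (E1_dX_mono sdiff_subset x).trans (hx x))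
      (fun y => (E1_dY_mono sdiff_subset y).trans (hy y))
    have hd : Disjoint F G := disjoint_of_subset_right hGE disjoint_sdiff
    refine ⟨F ∪ G, union_subset hFE (hGE.trans sdiff_subset), ?_, ?_⟩
    · rw [Nat.mul_succ, pow_add]
      exact good_union hF hG hd
    · intro x
      by_cases h : 2 * dX (E \ (F ∪ G)) x < Δ
      · exact Or.inl h
      · right
        push Not at h
        have h1 : dX (E \ (F ∪ G)) x ≤ dX (E \ F) x :=
          E1_dX_mono (sdiff_subset_sdiff Subset.rfl subset_union_left) x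
        have h2 : Δ ≤ 2 * dX (E \ F) x := by omega
        have h3 := (hFx x).resolve_left (by omega)
        have h4 := hGx x h2
        rw [E1_dX_union hd, Nat.mul_succ, Nat.mul_add L]
        exact Nat.add_le_add h3 h4

/-- pi:E1 -- all rounds for the left side -/
theorem rounds (E : Finset (X × Y)) (Δ J : ℕ) (hΔ : 0 < Δ) (hΔJ : Δ < 2 ^ J)
    (hbig : 100000000000 * J ^ 4 ≤ Δ) (hx : ∀ x, dX E x ≤ Δ) (hy : ∀ y, dY E y ≤ Δ) :
    ∃ F ⊆ E, Good F (2 ^ (100000000000 * J ^ 5 * (2097152 * J ^ 3))) ∧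
      ∀ x, 2 * dX (E \ F) x < Δ := by
  have hJ : 0 < J := by
    rcases Nat.eq_zero_or_pos J with h | h
    · subst h
      rw [pow_zero] at hΔJ
      omega
    · exact h
  have hL : 0 < 2097152 * J ^ 3 := by positivity
  obtain ⟨F, hFE, hF, hFx⟩ := E1_iter E Δ (100000000000 * J ^ 5) (2097152 * J ^ 3) hx hy
    (fun E' h1 h2 => round E' Δ J hΔJ hbig h1 h2) (2097152 * J ^ 3)
  refine ⟨F, hFE, hF, fun x => ?_⟩
  rcases hFx x with h | h
  · exact h
  · by_contra hc
    have h1 : Δ ≤ dX F x := by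
      rw [Nat.mul_comm Δ] at h
      exact Nat.le_of_mul_le_mul_left h hL
    have h2 : dX F x + dX (E \ F) x = dX E x := by
      rw [← E1_dX_union disjoint_sdiff, union_sdiff_of_subset hFE]
    have h3 := hx x
    omega

end block

end Pool.Agent.helper87.PI

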